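import Pool.Agent.Helper30.TR.Fin
import Pool.Agent.Helper10.TR.MT
import Pool.Agent.Helper10.TR.LN
import Pool.Agent.Helper27.TR.CH
import Pool.Agent.Helper27.TR.CI
import Pool.Agent.Helper44.TR.FC
import Pool.Agent.Helper44.TR.ROT
import Pool.Agent.Helper52.TR.HD
import Pool.Agent.Helper52.TR.PK
import Pool.Agent.Helper57.TR.TF
import Pool.Agent.Helper57.TR.XF
import Pool.Agent.Helper70.TR.YM
import Pool.Agent.Helper70.TR.YU
import Pool.Agent.Helper70.TR.YL
import Pool.Agent.Helper70.TR.SU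
import Pool.Agent.Helper70.TR.SL
import Pool.Agent.Helper70.TR.SP
import Pool.Agent.Helper81.TR.GD
import Pool.Agent.Helper85.TR.UB
import Pool.Agent.Helper86.TR.CB
import Pool.Agent.Helper86.TR.DA
import Pool.Agent.Helper86.TR.HS
import Pool.Agent.Helper86.TR.SN
import Pool.Agent.Helper86.TR.SM

/-!
# Project TR (helper30): the number of triangular faces of the regular drawing
-/

set_option autoImplicit false

namespace Pool.Agent.Helper30.TR

open Pool.Agent.Helper30.TriFace

/-- The regular drawing of `K_n`: the vertices are `(cos (2 π k / n), sin (2 π k / n))`. -/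
noncomputable def regularDrawing (n : ℕ) : ConvexDrawing n :=
  ⟨fun k => (Real.cos (2 * Real.pi * k / n), Real.sin (2 * Real.pi * k / n)),
    Pool.Agent.Helper27.TR.CI.main n⟩

/-- `t_reg(n)`: the number of `3`-faces of the regular drawing. -/
noncomputable def treg (n : ℕ) : ℕ := numThreeFaces (regularDrawing n)

theorem hSM : S_SM := Pool.Agent.Helper86.TR.SM.main Pool.Agent.Helper70.TR.YM.main
  Pool.Agent.Helper70.TR.YU.main Pool.Agent.Helper70.TR.YL.main
  (Pool.Agent.Helper70.TR.SU.main Pool.Agent.Helper44.TR.ROT.main)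
  (Pool.Agent.Helper70.TR.SL.main Pool.Agent.Helper44.TR.ROT.main)
  (Pool.Agent.Helper70.TR.SP.main Pool.Agent.Helper44.TR.ROT.main)

theorem hTR : S_TR := tr (Pool.Agent.Helper81.TR.GD.main hSM Pool.Agent.Helper86.TR.DA.main)
  (Pool.Agent.Helper57.TR.XF.main Pool.Agent.Helper27.TR.CH.main Pool.Agent.Helper10.TR.LN.main
    (Pool.Agent.Helper57.TR.TF.main Pool.Agent.Helper10.TR.MT.main Pool.Agent.Helper44.TR.FC.main)
    Pool.Agent.Helper52.TR.HD.main)
  Pool.Agent.Helper52.TR.PK.main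

theorem treg_order : (∃ c : ℝ, 0 < c ∧ ∀ n : ℕ, 3 ≤ n → c * (n : ℝ) ^ 4 ≤ treg n) ∧
    ∀ n : ℕ, treg n ≤ 4 * n ^ 4 := by
  obtain ⟨c, hc, h⟩ := hTR
  exact ⟨⟨c, hc, fun n hn => h n hn (regularDrawing n) rfl⟩,
    fun n => Pool.Agent.Helper85.TR.main n (regularDrawing n)⟩

end Pool.Agent.Helper30.TR
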