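import Pool.Agent.Helper30.TR.Spec

/-!
# Project TR (helper30), part TR
-/

set_option autoImplicit false

namespace Pool.Agent.Helper30.TR

open MeasureTheory Set Pool.Agent.Helper30.TriFace
open scoped Classical

theorem one_le_num {n : ℕ} (hn : 3 ≤ n) (D : ConvexDrawing n) : 1 ≤ numThreeFaces D := by
  rcases Nat.eq_or_lt_of_le hn with h | h
  · subst h
    rw [Pool.Agent.Helper30.TG.num_three]
  · refine le_trans ?_ (lower h D)
    have : 1 ≤ n - 3 := by omega
    nlinarith

theorem tr (hGD : S_GD) (hXF : S_XF) (hPK : S_PK) : S_TR := by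
  obtain ⟨n0, h0⟩ := hGD
  obtain ⟨n1, h1⟩ := hXF
  set N : ℕ := max (max n0 n1) 3 with hN
  have hN3 : 3 ≤ N := le_max_right _ _
  have hNpos : (0 : ℝ) < N := by
    have : (3 : ℝ) ≤ N := by exact_mod_cast hN3
    linarith
  refine ⟨min (1 / (100 * 126000 ^ 2)) (1 / (N : ℝ) ^ 4), by positivity, ?_⟩
  intro n hn D hD
  have hnpos : (0 : ℝ) < n := by
    have : (3 : ℝ) ≤ n := by exact_mod_cast hn
    linarith
  rcases le_or_gt N n with h | h
  · have e0 : n0 ≤ n := le_trans (le_trans (le_max_left _ _) (le_max_left _ _)) h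
    have e1 : n1 ≤ n := le_trans (le_trans (le_max_right _ _) (le_max_left _ _)) h
    have a0 := h0 n e0
    have a1 := hPK {F | IsThreeFace D F} {x | Gd n x} (30 * (2100 / (n : ℝ) ^ 2))
      (threeFaces_finite D) (by positivity) (fun x hx => by
        obtain ⟨F, hF, hne, hy⟩ := h1 n e1 D hD x hx
        exact ⟨F, hF, hne, hy⟩)
    have a2 : (1 : ℝ) / 100 ≤ numThreeFaces D * (126000 / (n : ℝ) ^ 2) ^ 2 := by
      refine le_trans a0 (le_trans a1 (le_of_eq ?_))
      unfold numThreeFaces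
      congr 1
      ring
    have a3 : numThreeFaces D * (126000 / (n : ℝ) ^ 2) ^ 2 =
        numThreeFaces D * 126000 ^ 2 / (n : ℝ) ^ 4 := by
      field_simp
    rw [a3, le_div_iff₀ (by positivity)] at a2
    calc min (1 / (100 * 126000 ^ 2)) (1 / (N : ℝ) ^ 4) * (n : ℝ) ^ 4
        ≤ 1 / (100 * 126000 ^ 2) * (n : ℝ) ^ 4 := by
          gcongr
          exact min_le_left _ _
      _ ≤ (numThreeFaces D : ℝ) := by
          rw [div_mul_eq_mul_div, div_le_iff₀ (by positivity)]
          nlinarith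
  · have hle : (1 : ℝ) ≤ numThreeFaces D := by exact_mod_cast one_le_num hn D
    have hnN : (n : ℝ) ≤ N := by exact_mod_cast h.le
    calc min (1 / (100 * 126000 ^ 2)) (1 / (N : ℝ) ^ 4) * (n : ℝ) ^ 4
        ≤ 1 / (N : ℝ) ^ 4 * (N : ℝ) ^ 4 := by
          gcongr
          exact min_le_right _ _
      _ = 1 := by field_simp
      _ ≤ (numThreeFaces D : ℝ) := hle

end Pool.Agent.Helper30.TR
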