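import Pool.Agent.Helper30.TG.Three

/-!
# Project TR (helper30), page MP_c17047_co: `t_reg(n) ≥ c n⁴`

Definitions and parts (as propositions `S_XXX`).
-/

set_option autoImplicit false

namespace Pool.Agent.Helper30.TR

open MeasureTheory Set Pool.Agent.Helper30.TriFace
open scoped Classical

/-- the linear form in the direction `θ` -/
noncomputable def hh (θ : ℝ) (x : ℝ × ℝ) : ℝ := x.1 * Real.cos θ + x.2 * Real.sin θ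

/-- the direction with index `s` -/
noncomputable def th (n : ℕ) (s : ℤ) : ℝ := Real.pi * s / n

/-- offsets near to the offset `cos (π m / n)`, `m ≡ s` modulo `2`, of a chord of direction `s` -/
def YY (n : ℕ) (σ : ℝ) (s : ℤ) : Set ℝ :=
  {y | ∃ m : ℤ, 0 < m ∧ m < n ∧ (2 : ℤ) ∣ m - s ∧ |y - Real.cos (Real.pi * m / n)| ≤ σ}

/-- the disc -/
def Ds (r : ℝ) : Set (ℝ × ℝ) := {x | x.1 ^ 2 + x.2 ^ 2 ≤ r ^ 2}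

/-- area -/
noncomputable def ar (S : Set (ℝ × ℝ)) : ℝ := (volume S).toReal

/-- length -/
noncomputable def len (S : Set ℝ) : ℝ := (volume S).toReal

/-- the vertices of the regular `n`-gon -/
noncomputable def rg (n : ℕ) (k : Fin n) : ℝ × ℝ :=
  (Real.cos (2 * Real.pi * k / n), Real.sin (2 * Real.pi * k / n))

/-! ### One dimension -/

/-- YM -/
def S_YM : Prop := ∀ (n : ℕ) (σ : ℝ) (s : ℤ), MeasurableSet (YY n σ s)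

/-- YU: upper bound for the density of `YY`. -/
def S_YU : Prop := ∀ (n : ℕ) (σ : ℝ) (s : ℤ) (y1 y2 : ℝ), 100 ≤ n → 0 < σ → σ * n ≤ 1 / 10 →
  -(1 / 10) ≤ y1 → y1 ≤ y2 → y2 ≤ 1 / 10 →
  len (YY n σ s ∩ Icc y1 y2) ≤ 1.02 * (σ * n / Real.pi) * (y2 - y1) + 5 * σ

/-- YL: lower bound for the density of `YY`. -/
def S_YL : Prop := ∀ (n : ℕ) (σ : ℝ) (s : ℤ) (y1 y2 : ℝ), 100 ≤ n → 0 < σ → σ * n ≤ 1 / 10 →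
  -(1 / 10) ≤ y1 → y1 ≤ y2 → y2 ≤ 1 / 10 →
  (σ * n / Real.pi) * (y2 - y1) - 5 * σ ≤ len (YY n σ s ∩ Icc y1 y2)

/-! ### Slices of the disc -/

/-- ROT: rotations preserve the area. -/
def S_ROT : Prop := ∀ (θ : ℝ) (S : Set (ℝ × ℝ)), MeasurableSet S →
  volume {x : ℝ × ℝ | (hh θ x, hh (θ + Real.pi / 2) x) ∈ S} = volume S

/-- DA: the area of a disc. -/
def S_DA : Prop := ∀ r : ℝ, 0 ≤ r → ar (Ds r) = Real.pi * r ^ 2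

/-- SU: upper bound by slices. -/
def S_SU : Prop := ∀ (θ a b κ : ℝ) (Y : Set ℝ), 0 ≤ a → 0 ≤ b → 0 < κ → MeasurableSet Y →
  (∀ w, 0 ≤ w → w ≤ κ → len (Y ∩ Icc (-w) w) ≤ a * (2 * w) + b) →
  ar {x | x ∈ Ds κ ∧ hh θ x ∈ Y} ≤ a * ar (Ds κ) + b * (2 * κ)

/-- SL: lower bound by slices. -/
def S_SL : Prop := ∀ (θ a b κ : ℝ) (Y : Set ℝ), 0 ≤ a → 0 ≤ b → 0 < κ → MeasurableSet Y →
  (∀ w, 0 ≤ w → w ≤ κ → a * (2 * w) - b ≤ len (Y ∩ Icc (-w) w)) →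
  a * ar (Ds κ) - b * (2 * κ) ≤ ar {x | x ∈ Ds κ ∧ hh θ x ∈ Y}

/-- SP: upper bound for two directions by slices. -/
def S_SP : Prop := ∀ (θ θ' a b κ : ℝ) (Y Y' : Set ℝ), 0 ≤ a → 0 ≤ b → 0 < κ → MeasurableSet Y →
  MeasurableSet Y' → Real.sin (θ' - θ) ≠ 0 →
  (∀ y1 y2, -κ ≤ y1 → y1 ≤ y2 → y2 ≤ κ → len (Y' ∩ Icc y1 y2) ≤ a * (y2 - y1) + b) →
  ar {x | x ∈ Ds κ ∧ hh θ x ∈ Y ∧ hh θ' x ∈ Y'} ≤
    a * ar {x | x ∈ Ds κ ∧ hh θ x ∈ Y} + b / |Real.sin (θ' - θ)| * len (Y ∩ Icc (-κ) κ)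

/-! ### Second moment -/

/-- CB: Chebyshev's inequality for the number of sets containing a point. -/
def S_CB : Prop := ∀ (S : Finset ℤ) (Ω : Set (ℝ × ℝ)) (B : ℤ → Set (ℝ × ℝ)) (l : ℝ),
  MeasurableSet Ω → volume Ω ≠ ⊤ → (∀ s ∈ S, MeasurableSet (B s)) → 0 ≤ l →
  l ^ 2 * ar {x | x ∈ Ω ∧ ∀ s ∈ S, x ∉ B s} ≤
    ∑ s ∈ S, ∑ s' ∈ S, ar {x | x ∈ Ω ∧ x ∈ B s ∧ x ∈ B s'} -
      2 * l * ∑ s ∈ S, ar {x | x ∈ Ω ∧ x ∈ B s} + l ^ 2 * ar Ω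

/-- HS: a harmonic sum. -/
def S_HS : Prop := ∀ (L : ℕ) (s0 : ℤ),
  ∑ s ∈ Finset.Ioc s0 (s0 + L), ∑ s' ∈ (Finset.Ioc s0 (s0 + L)).filter (fun s' => s' ≠ s),
    1 / |((s' : ℝ) - s)| ≤ 4 * L * Real.sqrt L

/-- SN: sine. -/
def S_SN : Prop := ∀ (n : ℕ) (s s' : ℤ), 0 < n → 2 * |s' - s| ≤ n →
  2 * |((s' : ℝ) - s)| / n ≤ |Real.sin (th n s' - th n s)|

/-- SM: for most points `x` of the disc there is a chord with direction in a given range of `n / 12`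
directions at distance at most `2100 / n²` of `x`. -/
def S_SM : Prop := ∃ n0 : ℕ, ∀ n : ℕ, n0 ≤ n → ∀ s0 : ℤ,
  ar {x | x ∈ Ds (1 / 10) ∧ ∀ s ∈ Finset.Ioc s0 (s0 + (n / 12 : ℕ)),
    hh (th n s) x ∉ YY n (2100 / (n : ℝ) ^ 2) s} ≤ 1 / 10 * ar (Ds (1 / 10))

/-! ### Good points -/

/-- there is a chord with direction in the range after `s0` at distance at most `σ` of `x` -/
def Hit (n : ℕ) (σ : ℝ) (s0 : ℤ) (x : ℝ × ℝ) : Prop := ∃ s m : ℤ, s0 < s ∧ s ≤ s0 + (n / 12 : ℕ) ∧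
  0 < m ∧ m < n ∧ (2 : ℤ) ∣ m - s ∧ |hh (th n s) x - Real.cos (Real.pi * m / n)| ≤ σ

/-- a good point: hits in three ranges of directions, the first one for a translate of `x` -/
def Gd (n : ℕ) (x : ℝ × ℝ) : Prop := x ∈ Ds (1 / 10) ∧
  Hit n (2100 / (n : ℝ) ^ 2) 0 (x.1 + 10 * (2100 / (n : ℝ) ^ 2), x.2) ∧
  Hit n (2100 / (n : ℝ) ^ 2) (n / 3 : ℕ) x ∧ Hit n (2100 / (n : ℝ) ^ 2) (2 * (n / 3 : ℕ)) x

/-- GD: many good points. -/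
def S_GD : Prop := ∃ n0 : ℕ, ∀ n : ℕ, n0 ≤ n → 1 / 100 ≤ ar {x | Gd n x}

/-! ### Triangles -/

/-- LN: three lines with directions in three ranges make a small nondegenerate triangle. -/
def S_LN : Prop := ∀ (σ θa θb θc α β γ : ℝ) (x : ℝ × ℝ), 0 < σ → 0 ≤ θa → θa ≤ Real.pi / 12 →
  5 * Real.pi / 16 ≤ θb → θb ≤ 5 * Real.pi / 12 → 5 * Real.pi / 8 ≤ θc → θc ≤ 3 * Real.pi / 4 →
  |hh θa (x.1 + 10 * σ, x.2) - α| ≤ σ → |hh θb x - β| ≤ σ → |hh θc x - γ| ≤ σ →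
  ∃ P1 P2 P3 : ℝ × ℝ, hh θb P1 = β ∧ hh θc P1 = γ ∧ hh θa P2 = α ∧ hh θc P2 = γ ∧
    hh θa P3 = α ∧ hh θb P3 = β ∧ det3 P1 P2 P3 ≠ 0 ∧
    ∀ P ∈ ({P1, P2, P3} : Set (ℝ × ℝ)), |P.1 - x.1| ≤ 30 * σ ∧ |P.2 - x.2| ≤ 30 * σ

/-- the lines `e`, `g`, `h` make the nondegenerate triangle `P1 P2 P3` (`P1` on `g`, `h`; `P2` on
`e`, `h`; `P3` on `e`, `g`) -/
def Trg {ι : Type} (E : Finset ι) (A B C : ι → ℝ) (e g h : ι) (P1 P2 P3 : ℝ × ℝ) : Prop :=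
  e ∈ E ∧ g ∈ E ∧ h ∈ E ∧
  A g * P1.1 + B g * P1.2 + C g = 0 ∧ A h * P1.1 + B h * P1.2 + C h = 0 ∧
  A e * P2.1 + B e * P2.2 + C e = 0 ∧ A h * P2.1 + B h * P2.2 + C h = 0 ∧
  A e * P3.1 + B e * P3.2 + C e = 0 ∧ A g * P3.1 + B g * P3.2 + C g = 0 ∧ det3 P1 P2 P3 ≠ 0

/-- MT: every triangle of lines contains one whose interior is met by no line. -/
def S_MT : Prop := ∀ {ι : Type} (E : Finset ι) (A B C : ι → ℝ), (∀ k ∈ E, A k ≠ 0 ∨ B k ≠ 0) →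
  ∀ (e g h : ι) (P1 P2 P3 : ℝ × ℝ), Trg E A B C e g h P1 P2 P3 →
  ∃ (e' g' h' : ι) (Q1 Q2 Q3 : ℝ × ℝ), Trg E A B C e' g' h' Q1 Q2 Q3 ∧
    Q1 ∈ convexHull ℝ {P1, P2, P3} ∧ Q2 ∈ convexHull ℝ {P1, P2, P3} ∧
    Q3 ∈ convexHull ℝ {P1, P2, P3} ∧
    ∀ k ∈ E, ∀ z ∈ interior (convexHull ℝ {Q1, Q2, Q3}), A k * z.1 + B k * z.2 + C k ≠ 0

/-- FC: an empty triangle of chords is a three-face. -/
def S_FC : Prop := ∀ (n : ℕ) (D : ConvexDrawing n) (e g h : Fin n × Fin n) (Q1 Q2 Q3 : ℝ × ℝ),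
  e.1 ≠ e.2 → g.1 ≠ g.2 → h.1 ≠ h.2 →
  det3 (D.pt g.1) (D.pt g.2) Q1 = 0 → det3 (D.pt h.1) (D.pt h.2) Q1 = 0 →
  det3 (D.pt e.1) (D.pt e.2) Q2 = 0 → det3 (D.pt h.1) (D.pt h.2) Q2 = 0 →
  det3 (D.pt e.1) (D.pt e.2) Q3 = 0 → det3 (D.pt g.1) (D.pt g.2) Q3 = 0 →
  det3 Q1 Q2 Q3 ≠ 0 → Q1 ∈ convexHull ℝ (range D.pt) → Q2 ∈ convexHull ℝ (range D.pt) →
  Q3 ∈ convexHull ℝ (range D.pt) →
  (∀ k : Fin n × Fin n, k.1 ≠ k.2 → ∀ z ∈ interior (convexHull ℝ {Q1, Q2, Q3}),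
    det3 (D.pt k.1) (D.pt k.2) z ≠ 0) →
  IsThreeFace D (interior (convexHull ℝ {Q1, Q2, Q3}))

/-- TF: every triangle of chords inside the polygon contains a three-face. -/
def S_TF : Prop := ∀ (n : ℕ) (D : ConvexDrawing n) (e g h : Fin n × Fin n) (P1 P2 P3 : ℝ × ℝ),
  e.1 ≠ e.2 → g.1 ≠ g.2 → h.1 ≠ h.2 →
  det3 (D.pt g.1) (D.pt g.2) P1 = 0 → det3 (D.pt h.1) (D.pt h.2) P1 = 0 →
  det3 (D.pt e.1) (D.pt e.2) P2 = 0 → det3 (D.pt h.1) (D.pt h.2) P2 = 0 →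
  det3 (D.pt e.1) (D.pt e.2) P3 = 0 → det3 (D.pt g.1) (D.pt g.2) P3 = 0 →
  det3 P1 P2 P3 ≠ 0 → P1 ∈ convexHull ℝ (range D.pt) → P2 ∈ convexHull ℝ (range D.pt) →
  P3 ∈ convexHull ℝ (range D.pt) →
  ∃ F, IsThreeFace D F ∧ F.Nonempty ∧ F ⊆ convexHull ℝ {P1, P2, P3}

/-! ### The regular polygon -/

/-- CI: the regular polygon is in convex position. -/
def S_CI : Prop := ∀ n : ℕ, ConvexIndependent ℝ (rg n)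

/-- CH: the chords of the regular polygon. -/
def S_CH : Prop := ∀ (n : ℕ) (s m : ℤ), 3 ≤ n → 0 < m → m < n → (2 : ℤ) ∣ m - s →
  ∃ i j : Fin n, i ≠ j ∧ ∃ c : ℝ, c ≠ 0 ∧ ∀ x : ℝ × ℝ,
    det3 (rg n i) (rg n j) x = c * (hh (th n s) x - Real.cos (Real.pi * m / n))

/-- HD: the regular polygon contains a disc. -/
def S_HD : Prop := ∀ n : ℕ, 3 ≤ n → Ds (1 / 2) ⊆ convexHull ℝ (range (rg n))

/-- XF: near to a good point there is a three-face. -/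
def S_XF : Prop := ∃ n0 : ℕ, ∀ n : ℕ, n0 ≤ n → ∀ D : ConvexDrawing n, D.pt = rg n →
  ∀ x, Gd n x → ∃ F, IsThreeFace D F ∧ F.Nonempty ∧
    ∀ y ∈ F, |y.1 - x.1| ≤ 30 * (2100 / (n : ℝ) ^ 2) ∧ |y.2 - x.2| ≤ 30 * (2100 / (n : ℝ) ^ 2)

/-- PK: packing. -/
def S_PK : Prop := ∀ (𝓕 : Set (Set (ℝ × ℝ))) (G : Set (ℝ × ℝ)) (r : ℝ), 𝓕.Finite → 0 ≤ r →
  (∀ x ∈ G, ∃ F ∈ 𝓕, F.Nonempty ∧ ∀ y ∈ F, |y.1 - x.1| ≤ r ∧ |y.2 - x.2| ≤ r) →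
  ar G ≤ 𝓕.ncard * (2 * r) ^ 2

/-- TR: the lower bound. -/
def S_TR : Prop := ∃ c : ℝ, 0 < c ∧ ∀ n : ℕ, 3 ≤ n → ∀ D : ConvexDrawing n, D.pt = rg n →
  c * (n : ℝ) ^ 4 ≤ numThreeFaces D

/-- UB: a (crude) upper bound for all drawings. -/
def S_UB : Prop := ∀ (n : ℕ) (D : ConvexDrawing n), numThreeFaces D ≤ 4 * n ^ 4

end Pool.Agent.Helper30.TR
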